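import Pool.Agent.Run7.h113.GE.VarMain

/-!
# Almost periodicity and uniform distribution of the L-functions of all varieties on the edge

`X` is a smooth projective variety over a number field `K`, for example over `K = ℚ`.  The Euler product of `L(H^i(X), s)`
converges absolutely for `Re s > i/2 + 1`.  The boundary values `Λ(t)` of `log L(H^i(X), s)` at the points `i/2 + 1 + it` of
the edge exist for almost all `t`; no continuation is known or assumed, and they may be unbounded.  We prove two theorems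
that are uniform in the varieties: all constants depend only on a bound `M` for `b_i(X) [K : ℚ]` (`b_i` is the Betti number).

* Common almost periods.  For every `M`, `r < ∞` and `ε > 0` there is a relatively dense set `P` of real numbers such that
  `‖Λ(t + τ) - Λ(t)‖ ≤ ε` in `L^r([T, T + 1])` for every real `T`, every `τ ∈ P`, and every `K`, `X` and `i` with
  `b_i(X) [K : ℚ] ≤ M`.  The same set `P` serves for the lines `Re s = i/2 + 1 + σ`, `σ ≥ 0`.
* Uniform distribution.  For every `M` there is `κ > 0` such that for every continuous `f : ℂ → ℝ` with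
  `|f z| ≤ C exp (κ |z|)` and `ε > 0` there are `H₀` and `Y₀` such that for all `K`, `X`, `i` with `b_i(X) [K : ℚ] ≤ M`, all
  `σ ≥ 0`, `H ≥ H₀`, all real `T` and `Y ≥ Y₀` the mean value of `f (log L)` over the segment from `i/2 + 1 + σ + iT` to
  `i/2 + 1 + σ + i(T + H)` differs by at most `ε` from the expectation of `f` at the random Euler product over the primes of
  norm less than `Y`; both tend to the integral over a limit law.

The lengths `H₀` do not depend on the conductors of the varieties or on the fields.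

`IsFrobenius`, `edgePoint` and `angle` are defined in `Pool/Agent/TH958/BV/Defs.lean`; `partialLog`, `logValue` and `LSeries`
in `Pool/Agent/Run7/h113/GE/VarDef.lean`.
-/

set_option autoImplicit false

namespace Pool.Agent.Results.MP_039d94_nt.AlmostPeriods

open NumberField IsDedekindDomain Filter Topology MeasureTheory
open Pool.Agent.TH958.BV (IsFrobenius edgePoint angle)
open Run7.h113.GE (partialLog logValue LSeries)
open scoped ENNReal

/-- The Frobenius eigenvalues `α_{v,1}, …, α_{v,N}` on `H^i(X)` at the primes `v ∉ S` of `K`, for a projective variety `X` over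
`K` of dimension `d` and a finite set `S`. -/
def IsFrobeniusSystem {K : Type} [Field K] [NumberField K] {n : ℕ} (X : Set (MvPolynomial (Fin n) (𝓞 K))) (d i : ℕ) {N : ℕ}
    (S : Set (HeightOneSpectrum (𝓞 K))) (α : HeightOneSpectrum (𝓞 K) → Fin N → ℂ) : Prop :=
  i ≤ 2 * d ∧ S.Finite ∧ ∀ v, v ∉ S → IsFrobenius X d i v (α v)

/-- Relatively dense sets of real numbers: they meet every interval of some fixed length. -/
def RelativelyDense (P : Set ℝ) : Prop := ∃ ℓ : ℝ, 0 < ℓ ∧ ∀ s : ℝ, ∃ τ ∈ P, s ≤ τ ∧ τ ≤ s + ℓ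

/-- The uniform probability measure on the unit cube of dimension the number of primes less than `Y`. -/
noncomputable def cubeMeasure (Y : ℕ) : Measure (Nat.primesBelow Y → ℝ) :=
  Measure.pi fun _ => volume.restrict (Set.Icc (0 : ℝ) 1)

/-- The completely multiplicative function (on the numbers less than `Y`) with the value `exp (2 π i θ_p)` at the prime
`p`. -/
noncomputable def character (Y : ℕ) (θ : Nat.primesBelow Y → ℝ) (n : ℕ) : ℂ :=
  Complex.exp (2 * Real.pi * Complex.I * ∑ p : Nat.primesBelow Y, (n.factorization p : ℂ) * θ p)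

/-- The sum of the logarithms of the Euler factors at the real point `s` over the primes `v ∉ S` of norm less than `Y`, in
which `p^(-it)` is replaced by `exp (2 π i θ_p)`. -/
noncomputable def randomLog {K : Type} [Field K] [NumberField K] {N : ℕ} (S : Set (HeightOneSpectrum (𝓞 K)))
    (α : HeightOneSpectrum (𝓞 K) → Fin N → ℂ) (s : ℝ) (Y : ℕ) (θ : Nat.primesBelow Y → ℝ) : ℂ :=
  ∑ᶠ v ∈ {v : HeightOneSpectrum (𝓞 K) | v ∉ S ∧ Ideal.absNorm v.asIdeal < Y},
    ∑ j, -Complex.log (1 - α v j * (Ideal.absNorm v.asIdeal : ℂ) ^ (-(s : ℂ)) *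
      character Y θ (Ideal.absNorm v.asIdeal))

/-- Continuous functions that grow at most like `exp (κ |z|)`. -/
def TestFunction (κ : ℝ) (f : ℂ → ℝ) : Prop :=
  Continuous f ∧ ∃ C : ℝ, ∀ z : ℂ, |f z| ≤ C * Real.exp (κ * ‖z‖)

/-- **Almost periodicity and uniform distribution on the edge.** -/
theorem result :
    -- the meaning of `logValue`
    (∀ (K : Type) [Field K] [NumberField K] (n : ℕ) (X : Set (MvPolynomial (Fin n) (𝓞 K))) (d i N : ℕ)
      (S : Set (HeightOneSpectrum (𝓞 K))) (α : HeightOneSpectrum (𝓞 K) → Fin N → ℂ), IsFrobeniusSystem X d i S α →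
      (∀ s : ℂ, (i : ℝ) / 2 + 1 < s.re → Tendsto (partialLog S α s) atTop (𝓝 (logValue S α s)) ∧
        Complex.exp (logValue S α s) = LSeries S α s) ∧
      ∀ᵐ t : ℝ, Tendsto (partialLog S α (edgePoint i t)) atTop (𝓝 (logValue S α (edgePoint i t))) ∧
        ∀ C : ℝ, Tendsto (logValue S α) (𝓝[angle i t C] (edgePoint i t)) (𝓝 (logValue S α (edgePoint i t)))) ∧
    -- common almost periods
    (∀ (M : ℕ) (r : ℝ≥0∞), r ≠ ∞ → ∀ ε : ℝ, 0 < ε → ∃ P : Set ℝ, RelativelyDense P ∧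
      ∀ (K : Type) [Field K] [NumberField K] (n : ℕ) (X : Set (MvPolynomial (Fin n) (𝓞 K))) (d i N : ℕ)
        (S : Set (HeightOneSpectrum (𝓞 K))) (α : HeightOneSpectrum (𝓞 K) → Fin N → ℂ), IsFrobeniusSystem X d i S α →
      0 < N → N * Module.finrank ℚ K ≤ M → ∀ σ : ℝ, 0 ≤ σ → ∀ τ ∈ P, ∀ T : ℝ,
        eLpNorm (fun t : ℝ => logValue S α (σ + edgePoint i (t + τ)) - logValue S α (σ + edgePoint i t)) r
          (volume.restrict (Set.Icc T (T + 1))) ≤ ENNReal.ofReal ε) ∧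
    -- uniform distribution
    ∀ M : ℕ, ∃ κ : ℝ, 0 < κ ∧
      (∀ f : ℂ → ℝ, TestFunction κ f → ∀ ε : ℝ, 0 < ε → ∃ (H₀ : ℝ) (Y₀ : ℕ), 0 < H₀ ∧
        ∀ (K : Type) [Field K] [NumberField K] (n : ℕ) (X : Set (MvPolynomial (Fin n) (𝓞 K))) (d i N : ℕ)
          (S : Set (HeightOneSpectrum (𝓞 K))) (α : HeightOneSpectrum (𝓞 K) → Fin N → ℂ), IsFrobeniusSystem X d i S α →
        0 < N → N * Module.finrank ℚ K ≤ M → ∀ σ : ℝ, 0 ≤ σ →
        (∀ a b : ℝ, IntervalIntegrable (fun t : ℝ => f (logValue S α (σ + edgePoint i t))) volume a b) ∧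
        (∀ Y : ℕ, Integrable (fun θ => f (randomLog S α (i / 2 + 1 + σ) Y θ)) (cubeMeasure Y)) ∧
        ∀ H : ℝ, H₀ ≤ H → ∀ (T : ℝ) (Y : ℕ), Y₀ ≤ Y →
          |(1 / H) * (∫ t in T..(T + H), f (logValue S α (σ + edgePoint i t))) -
            ∫ θ, f (randomLog S α (i / 2 + 1 + σ) Y θ) ∂(cubeMeasure Y)| ≤ ε) ∧
      ∀ (K : Type) [Field K] [NumberField K] (n : ℕ) (X : Set (MvPolynomial (Fin n) (𝓞 K))) (d i N : ℕ)
          (S : Set (HeightOneSpectrum (𝓞 K))) (α : HeightOneSpectrum (𝓞 K) → Fin N → ℂ), IsFrobeniusSystem X d i S α →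
        0 < N → N * Module.finrank ℚ K ≤ M → ∀ σ : ℝ, 0 ≤ σ →
        ∃ ν : Measure ℂ, IsProbabilityMeasure ν ∧ ∀ f : ℂ → ℝ, TestFunction κ f → Integrable f ν ∧
          (∀ ε : ℝ, 0 < ε → ∃ H₀ : ℝ, 0 < H₀ ∧ ∀ H : ℝ, H₀ ≤ H → ∀ T : ℝ,
            |(1 / H) * (∫ t in T..(T + H), f (logValue S α (σ + edgePoint i t))) - ∫ z, f z ∂ν| ≤ ε) ∧
          Tendsto (fun Y : ℕ => ∫ θ, f (randomLog S α (i / 2 + 1 + σ) Y θ) ∂(cubeMeasure Y)) atTop
            (𝓝 (∫ z, f z ∂ν)) := by
  have hnorm : ∀ (K : Type) [Field K] [NumberField K] (n : ℕ) (X : Set (MvPolynomial (Fin n) (𝓞 K))) (d i N : ℕ)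
      (S : Set (HeightOneSpectrum (𝓞 K))) (α : HeightOneSpectrum (𝓞 K) → Fin N → ℂ), IsFrobeniusSystem X d i S α →
      ∀ v, v ∉ S → ∀ j, ‖α v j‖ = (Pool.Agent.H921R2.TatePole.nm v : ℝ) ^ ((i : ℝ) / 2) :=
    fun K _ _ n X d i N S α h v hv j => Run7.h113.GE.norm_frob (h.2.2 v hv) j
  have hNM : ∀ {K : Type} [Field K] [NumberField K] {N M : ℕ}, 0 < N → N * Module.finrank ℚ K ≤ M →
      (N:ℝ) ≤ M ∧ Module.finrank ℚ K ≤ M ∧ (N:ℝ) * Module.finrank ℚ K ≤ M := by
    intro K _ _ N M hN h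
    have h1 : 0 < Module.finrank ℚ K := Module.finrank_pos
    refine ⟨?_, ?_, ?_⟩
    · have : N ≤ M := (Nat.le_mul_of_pos_right N h1).trans h
      exact_mod_cast this
    · exact (Nat.le_mul_of_pos_left _ hN).trans h
    · exact_mod_cast h
  -- the random Euler products
  have hRY : ∀ (K : Type) [Field K] [NumberField K] (i N M : ℕ)
      (S : Set (HeightOneSpectrum (𝓞 K))) (α : HeightOneSpectrum (𝓞 K) → Fin N → ℂ)
      (hα : ∀ v, v ∉ S → ∀ j, ‖α v j‖ = (Pool.Agent.H921R2.TatePole.nm v : ℝ) ^ ((i : ℝ) / 2)) (h1 : (N:ℝ) ≤ M)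
      (σ : ℝ) (Y : ℕ) (θ : Nat.primesBelow Y → ℝ),
      randomLog S α (i / 2 + 1 + σ) Y θ = (Run7.h113.GE.vSys hα h1).RY σ Y (Run7.h113.LE.pt θ) := by
    intro K _ _ i N M S α hα h1 σ Y θ
    classical
    unfold randomLog Run7.h113.GE.Sys.RY
    have e : {v : HeightOneSpectrum (𝓞 K) | v ∉ S ∧ Ideal.absNorm v.asIdeal < Y} =
        (((Pool.Agent.W350.EdgeV.FV Pool.Agent.H921R2.TatePole.nm Pool.Agent.W350.EdgeNF.hfin Y).filter fun v => v ∉ S :
          Finset (HeightOneSpectrum (𝓞 K))) : Set (HeightOneSpectrum (𝓞 K))) := by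
      ext v
      simp only [Set.mem_ofPred_eq, Finset.coe_filter, Pool.Agent.W350.EdgeV.mem_FV]
      exact and_comm
    rw [e, finsum_mem_coe_finset, Finset.sum_filter]
    refine Finset.sum_congr rfl fun v _ => ?_
    have hc : character Y θ (Ideal.absNorm v.asIdeal) =
        Run7.h113.LE.Xn Y (Pool.Agent.H921R2.TatePole.nm v) (Run7.h113.LE.pt θ) := by
      rw [Run7.h113.LE.Xn_pt]
      rfl
    have hG : ∀ z : ℂ, (Run7.h113.GE.vSys hα h1).G v z = ∑ j, -Complex.log (1 - Run7.h113.GE.nrm S i α v j * z) :=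
      fun z => rfl
    rw [hG, hc]
    by_cases hv : v ∈ S
    · rw [if_neg (by simpa using hv)]
      symm
      refine Finset.sum_eq_zero fun j _ => ?_
      unfold Run7.h113.GE.nrm
      rw [if_pos hv]
      simp
    · rw [if_pos hv]
      refine Finset.sum_congr rfl fun j _ => ?_
      unfold Run7.h113.GE.nrm
      rw [if_neg hv]
      have h0 : (0:ℝ) < Pool.Agent.H921R2.TatePole.nm v := by exact_mod_cast Pool.Agent.R433.MD.nm_pos v
      have e2 : (Ideal.absNorm v.asIdeal : ℂ) ^ (-(((i:ℝ) / 2 + 1 + σ : ℝ) : ℂ)) =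
          ((((Pool.Agent.H921R2.TatePole.nm v : ℝ) ^ (-((i : ℝ) / 2 + 1)) : ℝ) : ℂ)) *
          ((((Pool.Agent.H921R2.TatePole.nm v : ℝ) ^ (-σ) : ℝ) : ℂ)) := by
        rw [← Complex.ofReal_mul, ← Real.rpow_add h0, Complex.ofReal_cpow h0.le]
        push_cast
        congr 1
        ring
      rw [e2]
      congr 3
      ring
  refine ⟨?_, ?_, ?_⟩
  · intro K _ _ n X d i N S α h
    have hα := hnorm K n X d i N S α h
    refine ⟨fun s hs => ?_, Run7.h113.GE.ae_angle hα⟩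
    obtain ⟨u, rfl⟩ : ∃ u : ℂ, s = Run7.h113.GE.eg i + u := ⟨s - Run7.h113.GE.eg i, by ring⟩
    have hu : 0 < u.re := by
      rw [Run7.h113.GE.eg_re] at hs
      linarith
    obtain ⟨h1, h2⟩ := Run7.h113.GE.LL_eq hα (le_refl (N:ℝ)) hu
    exact ⟨by rw [h2]; exact h1, Run7.h113.GE.exp_logValue hα hu⟩
  · intro M r hr ε hε
    obtain ⟨P, hP, hmain⟩ := Run7.h113.GE.ap_main M M M (Nat.cast_nonneg M) (Nat.cast_nonneg M) hr hε
    refine ⟨P, hP, ?_⟩
    intro K _ _ n X d i N S α h hN hb σ hσ τ hτ T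
    have hα := hnorm K n X d i N S α h
    obtain ⟨h1, h2, h3⟩ := hNM (K := K) hN hb
    exact hmain K N (Run7.h113.GE.vSys hα h1) h2 h3 σ hσ _ (Run7.h113.GE.isLim_logValue hα h1 hσ) τ hτ T
  · intro M
    have hM : (0:ℝ) ≤ M := Nat.cast_nonneg M
    refine ⟨Run7.h113.GE.kp M / 2, half_pos (Run7.h113.GE.kp_pos M), ?_, ?_⟩
    · intro f hf ε hε
      have hf' : Run7.h113.LE.Cls (Run7.h113.GE.kp M) f := hf
      obtain ⟨H₀, Y₀, hH₀, hmain⟩ := Run7.h113.GE.main_law M M M hM hM hf' hε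
      refine ⟨H₀, Y₀, hH₀, ?_⟩
      intro K _ _ n X d i N S α h hN hb σ hσ
      have hα := hnorm K n X d i N S α h
      obtain ⟨h1, h2, h3⟩ := hNM (K := K) hN hb
      have hi := Run7.h113.GE.isLim_logValue hα h1 hσ
      have hgood : Run7.h113.LE.Good (Run7.h113.GE.kp M) (Run7.h113.GE.BB M M M)
          (fun t => logValue S α (σ + edgePoint i t)) := ⟨hi.aesm hσ, fun T => Run7.h113.GE.Sys.exp_lim h2 h3 hσ hi T⟩
      refine ⟨fun a b => hf'.ii (Run7.h113.GE.kp_pos M) hgood a b, fun Y => ?_, fun H hH T Y hY => ?_⟩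
      · have h4 := Run7.h113.LE.cube_int (ι := Nat.primesBelow Y)
          ⟨fun x => ((f ((Run7.h113.GE.vSys hα h1).RY σ Y x) : ℝ) : ℂ),
            Complex.continuous_ofReal.comp (hf.1.comp ((Run7.h113.GE.vSys hα h1).RY_cont hσ Y))⟩
        have h5 := h4.re
        refine h5.congr (Eventually.of_forall fun θ => ?_)
        simp only [hRY K i N M S α hα h1 σ Y θ]
        rfl
      · have h4 := hmain K N (Run7.h113.GE.vSys hα h1) h2 h3 σ hσ _ hi H hH T Y hY
        simp only [hRY K i N M S α hα h1 σ Y]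
        exact h4
    · intro K _ _ n X d i N S α h hN hb σ hσ
      have hα := hnorm K n X d i N S α h
      obtain ⟨h1, h2, h3⟩ := hNM (K := K) hN hb
      have hi := Run7.h113.GE.isLim_logValue hα h1 hσ
      obtain ⟨ν, hν, hlaw⟩ := Run7.h113.GE.law_exists (Run7.h113.GE.vSys hα h1) h2 h3 hσ hi
      refine ⟨ν, hν, fun f hf => ?_⟩
      have hf' : Run7.h113.LE.Cls (Run7.h113.GE.kp M) f := hf
      obtain ⟨h4, h5⟩ := hlaw f hf'
      have h6 : ∀ ε : ℝ, 0 < ε → ∃ (H₀ : ℝ) (Y₀ : ℕ), 0 < H₀ ∧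
          (∀ Y : ℕ, Y₀ ≤ Y → |(∫ z, f z ∂ν) - ∫ θ, f (randomLog S α (i / 2 + 1 + σ) Y θ) ∂(cubeMeasure Y)| ≤ ε) ∧
          ∀ H : ℝ, H₀ ≤ H → ∀ (T : ℝ) (Y : ℕ), Y₀ ≤ Y →
            |(1 / H) * (∫ t in T..(T + H), f (logValue S α (σ + edgePoint i t))) -
              ∫ θ, f (randomLog S α (i / 2 + 1 + σ) Y θ) ∂(cubeMeasure Y)| ≤ ε := by
        intro ε hε
        obtain ⟨H₀, Y₀, hH₀, hmain⟩ := Run7.h113.GE.main_law M M M hM hM hf' hε
        have h7 : ∀ H : ℝ, H₀ ≤ H → ∀ (T : ℝ) (Y : ℕ), Y₀ ≤ Y →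
            |(1 / H) * (∫ t in T..(T + H), f (logValue S α (σ + edgePoint i t))) -
              ∫ θ, f (randomLog S α (i / 2 + 1 + σ) Y θ) ∂(cubeMeasure Y)| ≤ ε := by
          intro H hH T Y hY
          have h8 := hmain K N (Run7.h113.GE.vSys hα h1) h2 h3 σ hσ _ hi H hH T Y hY
          simp only [hRY K i N M S α hα h1 σ Y]
          exact h8
        refine ⟨H₀, Y₀, hH₀, fun Y hY => ?_, h7⟩
        have h8 := (h5.sub_const (∫ θ, f (randomLog S α (i / 2 + 1 + σ) Y θ) ∂(cubeMeasure Y))).abs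
        refine le_of_tendsto h8 ?_
        obtain ⟨Q, hQ⟩ := exists_nat_ge H₀
        filter_upwards [eventually_ge_atTop Q] with q hq
        have h9 := h7 q (hQ.trans (by exact_mod_cast hq)) 0 Y hY
        rw [zero_add] at h9
        exact h9
      refine ⟨h4, fun ε hε => ?_, ?_⟩
      · obtain ⟨H₀, Y₀, hH₀, h7, h8⟩ := h6 (ε / 2) (by positivity)
        refine ⟨H₀, hH₀, fun H hH T => ?_⟩
        have h9 := h7 Y₀ le_rfl
        have h10 := h8 H hH T Y₀ le_rfl
        rw [abs_le] at h9 h10 ⊢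
        constructor <;> linarith [h9.1, h9.2, h10.1, h10.2]
      · rw [Metric.tendsto_atTop]
        intro ε hε
        obtain ⟨H₀, Y₀, hH₀, h7, h8⟩ := h6 (ε / 2) (by positivity)
        refine ⟨Y₀, fun Y hY => ?_⟩
        rw [Real.dist_eq, abs_sub_comm]
        have := h7 Y hY
        linarith

end Pool.Agent.Results.MP_039d94_nt.AlmostPeriods
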