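import Pool.Agent.Run7.h522.BM.Places

/-!
# The logarithm of the L-function of a variety has bounded mean oscillation on the edge

`X` is a smooth projective variety over a number field `K`, for example over `K = ℚ`.  The Euler
product of `L(H^i(X), s)` converges absolutely for `Re s > i/2 + 1`.  The theorem says that the
boundary values of `log L(H^i(X), s)` on the edge `Re s = i/2 + 1` exist almost everywhere and have
bounded mean oscillation (BMO), with a bound `C b_i [K : ℚ]` for the BMO norm, where `b_i` is the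
`i`-th Betti number of `X` and the constant `C` is absolute.  No continuation, no modularity and no
automorphy is used or assumed.

`IsFrobenius`, `edgePoint` and `angle` are defined in `Pool/Agent/TH958/BV/Defs.lean`.
-/

set_option autoImplicit false

namespace Pool.Agent.Results.MP_039d94_nt.EdgeOscillation

open NumberField IsDedekindDomain Filter Topology MeasureTheory Pool.Agent.TH958.BV

/-- `log L_S(H^i(X), s) = ∑_{v ∉ S} ∑_j - log (1 - α_{v,j} q_v^{-s})`, where `α_{v,1}, …, α_{v,N}` are
the eigenvalues of Frobenius at the prime `v` of `K` on `H^i(X)` and `q_v` is the norm of `v`. -/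
noncomputable def logL {K : Type} [Field K] [NumberField K] {N : ℕ}
    (S : Set (HeightOneSpectrum (𝓞 K))) (α : HeightOneSpectrum (𝓞 K) → Fin N → ℂ) (s : ℂ) : ℂ :=
  ∑' v : {v : HeightOneSpectrum (𝓞 K) // v ∉ S},
    ∑ j, -Complex.log (1 - α v j * (Ideal.absNorm v.1.asIdeal : ℂ) ^ (-s))

/-- **Bounded mean oscillation on the edge.**  There is an absolute constant `C` such that for every
number field `K`, every projective variety `X` over `K` of dimension `d`, every `i ≤ 2 d`, and every
finite set `S` of primes of `K` such that for `v ∉ S` the numbers `α_{v,1}, …, α_{v,N}` are the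
eigenvalues of Frobenius on `H^i(X)` there is a measurable function `l` on the real line with the
following properties.

* `log L_S(H^i(X), s)` tends to `l(τ)` as `s` tends to `i/2 + 1 + iτ` in any angle in the half-plane
  `Re s > i/2 + 1`, for almost all real `τ`.
* For every interval `(a, b]` there is a number `c`, and `c = 0` if `b - a ≥ 1`, such that the mean
  value of `exp (|l(τ) - c| / (C N [K : ℚ]))` over the interval is at most `2`. -/
theorem result : ∃ C : ℝ, 0 < C ∧
    ∀ (K : Type) [Field K] [NumberField K] (n : ℕ) (X : Set (MvPolynomial (Fin n) (𝓞 K)))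
      (d i N : ℕ) (_ : i ≤ 2 * d) (S : Set (HeightOneSpectrum (𝓞 K))) (_ : S.Finite)
      (α : HeightOneSpectrum (𝓞 K) → Fin N → ℂ) (_ : ∀ v, v ∉ S → IsFrobenius X d i v (α v)),
      ∃ l : ℝ → ℂ, Measurable l ∧
        (∀ᵐ τ : ℝ, ∀ A : ℝ, Tendsto (logL S α) (𝓝[angle i τ A] (edgePoint i τ)) (𝓝 (l τ))) ∧
        ∀ a b : ℝ, a < b → ∃ c : ℂ, (1 ≤ b - a → c = 0) ∧
          IntegrableOn (fun τ => Real.exp (‖l τ - c‖ / (C * N * Module.finrank ℚ K)))
            (Set.Ioc a b) ∧
          1 / (b - a) * ∫ τ in a..b, Real.exp (‖l τ - c‖ / (C * N * Module.finrank ℚ K)) ≤ 2 := by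
  classical
  refine ⟨Run7.h522.BM.CB, Run7.h522.BM.CB_pos, ?_⟩
  intro K _ _ n X d i N _ S _ α hα
  have hW : Run7.h522.BM.Wt S i α := fun v hv j => norm_of_isFrobenius (hα v hv) j
  have hlog : logL S α = Run7.h522.BM.logL S α := by
    funext s
    unfold logL Run7.h522.BM.logL
    have h1 := tsum_subtype (({v | v ∉ S} : Set (HeightOneSpectrum (𝓞 K))))
      (fun v => ∑ j, -Complex.log (1 - α v j * (Ideal.absNorm v.asIdeal : ℂ) ^ (-s)))
    refine h1.trans (tsum_congr fun v => ?_)
    unfold Run7.h522.BM.lv
    by_cases hv : v ∈ S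
    · rw [if_pos hv, Set.indicator_of_notMem (by simpa using hv)]
    · rw [if_neg hv, Set.indicator_of_mem (by simpa using hv)]
  have hm := Run7.h522.BM.aemeasurable_logB hW
  set l := hm.mk _ with hl
  have hle : ∀ᵐ τ : ℝ, Run7.h522.BM.logB S i α τ = l τ := hm.ae_eq_mk
  refine ⟨l, hm.measurable_mk, ?_, ?_⟩
  · filter_upwards [Run7.h522.BM.ae_notMem hW, hle] with τ h1 h2 A
    rw [hlog, ← h2]
    exact (Run7.h522.BM.boundary_value hW h1).2 A
  · intro a b hab
    obtain ⟨c, hc1, hc2⟩ := Run7.h522.BM.oscillation hW hab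
    refine ⟨c, hc1, ?_⟩
    have hC : Run7.h522.BM.CB * (N * Module.finrank ℚ K) =
        Run7.h522.BM.CB * N * Module.finrank ℚ K := by ring
    rw [hC] at hc2
    have hmeas : Measurable fun τ => Real.exp (‖l τ - c‖ /
        (Run7.h522.BM.CB * N * Module.finrank ℚ K)) :=
      (((hm.measurable_mk.sub_const c).norm).div_const _).exp
    have h3 : ∫⁻ τ in Set.Ioc a b, ENNReal.ofReal (Real.exp (‖l τ - c‖ /
        (Run7.h522.BM.CB * N * Module.finrank ℚ K))) ≤ ENNReal.ofReal (2 * (b - a)) := by
      refine le_trans (le_of_eq (lintegral_congr_ae ?_)) hc2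
      filter_upwards [ae_restrict_of_ae hle] with τ h2
      rw [h2]
    have hint : IntegrableOn (fun τ => Real.exp (‖l τ - c‖ /
        (Run7.h522.BM.CB * N * Module.finrank ℚ K))) (Set.Ioc a b) := by
      refine ⟨hmeas.aestronglyMeasurable, ?_⟩
      rw [hasFiniteIntegral_iff_ofReal (ae_of_all _ fun τ => (Real.exp_pos _).le)]
      exact h3.trans_lt ENNReal.ofReal_lt_top
    refine ⟨hint, ?_⟩
    have hba : 0 < b - a := by linarith
    rw [intervalIntegral.integral_of_le hab.le, one_div, inv_mul_le_iff₀ hba,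
      integral_eq_lintegral_of_nonneg_ae (ae_of_all _ fun τ => (Real.exp_pos _).le)
        hmeas.aestronglyMeasurable]
    refine ENNReal.toReal_le_of_le_ofReal (by positivity) ?_
    rw [mul_comm (b - a) 2]
    exact h3

end Pool.Agent.Results.MP_039d94_nt.EdgeOscillation
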