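import Pool.Agent.Run7.h158.MT.Pot
import Pool.Agent.Run7.h457.MT.Family
import Pool.Agent.Run7.h411.Cft7
import Pool.Agent.TH958.BV.Defs

/-!
# L-functions of hyperkähler varieties with complex multiplication

Let `X_t` be projective hyperkähler varieties, of any deformation type, over a number field `K`, such that
the Galois representations on the `H²(X_t)` become direct sums of characters over a finite extension of
`K` (by the theorem of André this means that the Hodge structures `H²(X_t)` have complex multiplication).
Let `X` be a product of varieties `X_t`. Then in all degrees `i`, even and odd, the representation on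
`H^i(X)` becomes a direct sum of characters over a finite extension `K'` of `K`, which does not depend on
`X` and `i`, and

* for every finite extension `L` of `K` the function `L(H^i(X_L), s)` has a meromorphic continuation to
  the complex plane, whose only zero or pole in the closed half-plane `Re s ≥ i/2 + 1` is, for even `i`, a
  pole at `i/2 + 1`, of order the dimension of the space of the Tate classes;
* if `L` contains `K'` then the continuation is holomorphic on the whole complex plane, except for this
  pole.
-/

set_option autoImplicit false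

namespace Pool.Agent.Results.MP_039d94_nt.HyperKaehlerCM

open Module Matrix NumberField IsDedekindDomain Filter Topology Polynomial
open Pool.Agent.N184.HK Pool.Agent.W401.Cheb Pool.Agent.TH958.BV Run7.h457.MT Run7.h158.MT

noncomputable section

section

variable (K : Type) [Field K] (L : Type) [Field L] [Algebra L (AlgebraicClosure K)]

/-- The Galois group of the subfield `L` of the algebraic closure of `K`. -/
def absGal : Subgroup (GK K) where
  carrier := {σ | ∀ x : L, σ (algebraMap L (AlgebraicClosure K) x) = algebraMap L _ x}
  one_mem' _ := rfl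
  mul_mem' {σ τ} hσ hτ x := by
    change σ (τ (algebraMap L (AlgebraicClosure K) x)) = _
    rw [hτ x, hσ x]
  inv_mem' {σ} hσ x := by
    change σ.symm (algebraMap L (AlgebraicClosure K) x) = _
    rw [AlgEquiv.symm_apply_eq, hσ x]

end

variable {K : Type} [Field K] [NumberField K] {ℓ : ℕ} [Fact ℓ.Prime] {κ : Type} [Fintype κ]
  [DecidableEq κ] (L : Type) [Field L] [NumberField L] [Algebra L (AlgebraicClosure K)]
  (ρ : GK K → Matrix κ κ ℚ_[ℓ])

/-- The vectors which are fixed by the inertia group in the Galois group of `L` at the maximal ideal `Q` of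
the ring of all algebraic integers. -/
def invariants (Q : Ideal (𝓞 (AlgebraicClosure K))) : Submodule ℚ_[ℓ] (κ → ℚ_[ℓ]) :=
  ⨅ τ ∈ (absGal K L : Set (GK K)) ∩ inertia Q, LinearMap.ker (Matrix.mulVecLin (ρ τ - 1))

/-- `σ` is a geometric Frobenius element of the Galois group of `L` at the maximal ideal `Q` of the ring of
all algebraic integers, which lies above the place `v` of `L`. -/
def IsFrobenius (v : HeightOneSpectrum (𝓞 L)) (Q : Ideal (𝓞 (AlgebraicClosure K))) (σ : GK K) :
    Prop :=
  Q.IsMaximal ∧ Q.comap (algebraMap (𝓞 L) (𝓞 (AlgebraicClosure K))) = v.asIdeal ∧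
    σ ∈ absGal K L ∧ ∀ x, σ⁻¹ • x - x ^ Ideal.absNorm v.asIdeal ∈ Q

/-- `P(z) = det(1 - z f | W)` for the restriction of the automorphism `f` to the subspace `W`. -/
def IsReverseCharpoly {F V : Type} [Field F] [AddCommGroup V] [Module F V] [FiniteDimensional F V]
    (f : Module.End F V) (W : Submodule F V) (P : F[X]) : Prop :=
  ∃ h : ∀ x ∈ W, f x ∈ W, P = (f.restrict h).charpoly.reverse

/-- `b` is the Euler factor of `ρ` at the place `v` of `L`, which does not divide `ℓ`:
`b(z) = det(1 - z σ | V^I)`, for the inertia group `I` and a geometric Frobenius element `σ` at a maximal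
ideal `Q` above `v`, and this polynomial has rational coefficients. -/
def IsEulerFactor (v : HeightOneSpectrum (𝓞 L)) (b : ℂ[X]) : Prop :=
  (ℓ : 𝓞 L) ∉ v.asIdeal ∧ ∃ P : ℚ[X], b = P.map (algebraMap ℚ ℂ) ∧ ∀ Q σ, IsFrobenius L v Q σ →
    IsReverseCharpoly (Matrix.mulVecLin (ρ σ)) (invariants L ρ Q) (P.map (algebraMap ℚ ℚ_[ℓ]))

/-- The polynomials `B v ≠ 0` are, for almost all places `v` of `L`, the Euler factors of the
`L`-function of the representation `ρ`, which is pure of weight `w`: the zeros of `B v` have absolute value
`(N v)^(-w/2)`. The finitely many other `B v` are arbitrary. -/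
def IsEulerSystem (w : ℕ) (B : HeightOneSpectrum (𝓞 L) → ℂ[X]) : Prop :=
  (∀ᶠ v in cofinite, IsEulerFactor L ρ v (B v) ∧
    ∀ z, (B v).eval z = 0 → ‖z‖ ^ 2 * (Ideal.absNorm v.asIdeal : ℝ) ^ w = 1) ∧ ∀ v, B v ≠ 0

/-- The space of the Tate classes over `L`: the vectors on which `σ` acts as multiplication by
`χ(σ)^(-j)`, for the cyclotomic character `χ`. -/
def tateClasses (j : ℕ) : Submodule ℚ_[ℓ] (κ → ℚ_[ℓ]) :=
  ⨅ σ ∈ absGal K L, LinearMap.ker (Matrix.mulVecLin (cyc K ℓ σ ^ j • ρ σ - 1))

/-- The expected order of the `L`-function at the point `s` with `Re s ≥ w/2 + 1`: minus the dimension of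
the space of the Tate classes, if `w` is even and `s = w/2 + 1`, and `0` at the other points. -/
def expectedOrder (w : ℕ) (s : ℂ) : WithTop ℤ := open scoped Classical in
  if Even w ∧ s = (w : ℂ) / 2 + 1 then ((-(finrank ℚ_[ℓ] (tateClasses L ρ (w / 2)) : ℤ) : ℤ) :
    WithTop ℤ) else 0

/-- The Euler product `L(ρ, s) = ∏ B v (N v ^ (-s))⁻¹` has a meromorphic continuation `Λ` to the complex
plane; if the factors with the arbitrary `B v` have no pole for `Re s ≥ w/2 + 1`, then `Λ` has the expected
order at all points of this half-plane. -/
def Continues (w : ℕ) (B : HeightOneSpectrum (𝓞 L) → ℂ[X]) : Prop :=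
  ∃ Λ : ℂ → ℂ, (∀ s, MeromorphicAt Λ s) ∧ (∀ s : ℂ, (w : ℝ) / 2 + 1 < s.re → Λ s = LFun B s) ∧
    ((∀ (v : HeightOneSpectrum (𝓞 L)) (s : ℂ), (w : ℝ) / 2 + 1 ≤ s.re →
      (B v).eval ((Ideal.absNorm v.asIdeal : ℂ) ^ (-s)) ≠ 0) →
    ∀ s : ℂ, (w : ℝ) / 2 + 1 ≤ s.re → meromorphicOrderAt Λ s = expectedOrder L ρ w s)

/-- The Euler product has a continuation `Λ` which is holomorphic on the whole complex plane, except for a
pole at `w/2 + 1` if `w` is even, of the expected order (no pole if this order is zero). -/
def Holomorphic (w : ℕ) (B : HeightOneSpectrum (𝓞 L) → ℂ[X]) : Prop :=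
  ∃ Λ : ℂ → ℂ, (∀ s : ℂ, ¬ (Even w ∧ s = (w : ℂ) / 2 + 1) → AnalyticAt ℂ Λ s) ∧
    MeromorphicAt Λ ((w : ℂ) / 2 + 1) ∧
    meromorphicOrderAt Λ ((w : ℂ) / 2 + 1) = expectedOrder L ρ w ((w : ℂ) / 2 + 1) ∧
    ∀ s : ℂ, (w : ℝ) / 2 + 1 < s.re → Λ s = LFun B s

/-- The `L`-functions of `ρ`. Let `L` be a finite extension of `K` such that the Euler factors of `ρ` at
almost all places of `L` are rational, and pure of weight `w`. Then `L(ρ, s)`, over `L`, has a meromorphic
continuation to the complex plane, with the expected order for `Re s ≥ w/2 + 1`. If the Galois group of `L`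
is contained in `U`, and all `B v` are the Euler factors of `ρ`, or `1` (Euler factors which are left out),
then the continuation is holomorphic except for the expected pole. -/
def LFunctions (U : Subgroup (GK K)) (w : ℕ) : Prop :=
  ∀ (L : Type) [Field L] [NumberField L] [Algebra K L] [Algebra L (AlgebraicClosure K)]
    [IsScalarTower K L (AlgebraicClosure K)] (B : HeightOneSpectrum (𝓞 L) → ℂ[X]),
  IsEulerSystem L ρ w B → Continues L ρ w B ∧
    (absGal K L ≤ U → (∀ v, B v = 1 ∨ IsEulerFactor L ρ v (B v)) → Holomorphic L ρ w B)

/-- The theorem of Hecke, for a continuous `ℓ`-adic representation `ρ` of the absolute Galois group of `K`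
whose restriction to an open subgroup `U` is a direct sum of characters. (The characters of the Galois
groups of finite extensions of `K` which occur, come from algebraic Hecke characters, by Serre, Waldschmidt
and Henniart. If the Galois group of `L` is contained in `U` then `L(ρ, s)` is a product of `L`-functions of
such characters; in general it is a product of integral powers of such functions, for extensions of `L`, by
the theorem of Brauer.) -/
def HeckeTheorem (K : Type) [Field K] [NumberField K] (ℓ : ℕ) [Fact ℓ.Prime] : Prop :=
  ∀ (κ : Type) [Fintype κ] [DecidableEq κ] (ρ : GK K → Matrix κ κ ℚ_[ℓ]), Continuous ρ →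
  ρ 1 = 1 → (∀ σ τ, ρ (σ * τ) = ρ σ * ρ τ) →
  ∀ U : Subgroup (GK K), IsOpen (U : Set (GK K)) → SumOfCharacters U ρ → ∀ w, LFunctions ρ U w

/-- The representation on `H²(V)` becomes a direct sum of characters on an open subgroup of the Galois
group. By the theorem of André this means that `H²(V)` has complex multiplication. -/
def HasCM (V : HK K ℓ) : Prop := PotAb (V.C.G 2)

/-- **L-functions of products of hyperkähler varieties with complex multiplication.** Let `V t` be
projective hyperkähler varieties, of any deformation type, over the number field `K`, such that on an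
open subgroup of the Galois group the representations on the `H²(V t)` are direct sums of characters.
There is an open subgroup `U` of the Galois group such that for every product `X` of varieties `V t` (with
repetitions, `X = ∏ V (τ s)`), and for every `i`, even or odd, the representation on `H^i(X)` is a
direct sum of characters on `U`; for every finite extension `L` of `K`, for instance `L = K`, the function
`L(H^i(X_L), s)` has a meromorphic continuation to the complex plane, with the expected order at the points
of `Re s ≥ i/2 + 1`; and if the Galois group of `L` is contained in `U` then the continuation is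
holomorphic, except for the expected pole at `i/2 + 1`. Known theorems which are used as hypotheses: the
theorem of Hecke, and the facts on the cohomology of hyperkähler varieties in the structure `HK`. -/
theorem result {K : Type} [Field K] [NumberField K] {ℓ : ℕ} [Fact ℓ.Prime]
    (hecke : HeckeTheorem K ℓ) {T : Type} [Fintype T] (V : T → HK K ℓ) (hcm : ∀ t, HasCM (V t)) :
    ∃ U : Subgroup (GK K), IsOpen (U : Set (GK K)) ∧
    ∀ (S : Type) [Fintype S] [DecidableEq S] (τ : S → T) (i : ℕ),
      SumOfCharacters U (gal (fun s => V (τ s)) i) ∧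
      LFunctions (gal (fun s => V (τ s)) i) U i := by
  obtain ⟨U, hU, h⟩ := pot_all (fun t => (V t).X) (fun t => (V t).B) (fun t => (V t).C.old)
    (Run7.h411.Cft.cft K ℓ) (fun t Q hQ h => (V t).old Q hQ h) hcm
  refine ⟨U, hU, ?_⟩
  intro S _ _ τ i
  have h3 : SumOfCharacters U (gal (fun s => V (τ s)) i) :=
    pot_kun (fun t => (V t).B) (fun t j => (V t).C.G j) τ i h
  have h4 : Continuous (gal (fun s => V (τ s)) i) :=
    cont_kun (fun t => (V t).B) (fun t j => (V t).C.G j) τ i fun t j => cont_G' (V t).C.old j
  exact ⟨h3, hecke _ (gal (fun s => V (τ s)) i) h4 (gal_one _ i) (gal_mul _ i) U hU h3 i⟩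

end

end Pool.Agent.Results.MP_039d94_nt.HyperKaehlerCM
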