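import Pool.Agent.Run7.h113.GE.VarMain

/-!
# Large deviations of the L-functions of varieties on the edge of absolute convergence

`X` is a smooth projective variety over a number field `K`, for example over `K = ℚ`.  The Euler product of `L(H^i(X), s)`
converges absolutely for `Re s > i/2 + 1`.  The boundary values of `log L(H^i(X), s)` on the edge `Re s = i/2 + 1` exist
almost everywhere; no continuation is known or assumed, and they may be unbounded.  We find the frequency of their large
values, up to a constant in the innermost exponent.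

* Uniform upper bound.  For every `M` there is `C` such that for every `V ≥ C` there is `H₀` such that for every number field
  `K`, every projective variety `X` over `K` and every `i` with `b_i(X) [K : ℚ] ≤ M` (`b_i` is the Betti number), every
  `σ ≥ 0`, every `H ≥ H₀` and every real `T` the set of the `t` in `[T, T + H]` with `|log L(H^i(X), i/2 + 1 + σ + it)| ≥ V`
  has measure at most `H exp (- exp (exp ((V - C) / M)))`.
* The exponent `1 / M` is best possible: for every `M` there are a variety and a degree `i`, with `K = ℚ` and `b_i(X) = M`,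
  for which the measure is at least `H exp (- exp (exp ((V + C) / M)))`.
* In general the frequency is governed by the mean size of the traces of Frobenius: if the sum over the prime numbers
  `p ≤ n` of `p^(-i/2-1) |∑ tr (Frob_v | H^i(X))|`, the inner sum over the primes `v` of `K` of norm `p`, is at most (at least)
  `κ log log n + O(1)`, then the upper (lower) bound holds with `1 / κ` in place of `1 / M`.

The lengths `H₀` and the constants are the same for all varieties as above; they do not depend on the conductors.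

`IsFrobenius`, `edgePoint` and `angle` are defined in `Pool/Agent/TH958/BV/Defs.lean`; `partialLog`, `logValue`, `LSeries` and
`traceSum` in `Pool/Agent/Run7/h113/GE/VarDef.lean`.

Proof.  By the uniform distribution of the boundary values in long intervals, which is proved uniformly in the varieties,
the frequency is the probability of the corresponding event for the random Euler product, up to a small error.  The parts
of its logarithm that belong to the prime numbers `p` are independent, they have mean zero by the mean value theorem for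
analytic functions, and by Deligne's theorem they are `c_p z_p + O(1/p²)`, `|c_p| ≤ M/p`, with `z_p` uniformly distributed on
the circle.  The sum over `p > s` exceeds a constant with probability at most `exp (- s)` by Hoeffding's inequality; the sum
over `p ≤ s` is at most `∑ |c_p| + O(1)`, and it is at least `∑ |c_p| - O(1)` with probability at least `exp (- s²)`.
-/

set_option autoImplicit false

namespace Pool.Agent.Results.MP_039d94_nt.LargeDeviations

open NumberField IsDedekindDomain Filter Topology MeasureTheory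
open Pool.Agent.TH958.BV (IsFrobenius edgePoint angle)
open Run7.h113.GE (partialLog logValue LSeries traceSum)

/-- The set of the `t` in `[T, T + H]` with `|log L_S(i/2 + 1 + σ + it)| ≥ V`. -/
def largeSet {K : Type} [Field K] [NumberField K] {N : ℕ} (S : Set (HeightOneSpectrum (𝓞 K))) (i : ℕ)
    (α : HeightOneSpectrum (𝓞 K) → Fin N → ℂ) (σ V T H : ℝ) : Set ℝ :=
  {t : ℝ | t ∈ Set.Icc T (T + H) ∧ V ≤ ‖logValue S α (σ + edgePoint i t)‖}

/-- The Frobenius eigenvalues `α_{v,1}, …, α_{v,N}` on `H^i(X)` at the primes `v ∉ S` of `K`, for a projective variety `X` over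
`K` of dimension `d` and a finite set `S`. -/
def IsFrobeniusSystem {K : Type} [Field K] [NumberField K] {n : ℕ} (X : Set (MvPolynomial (Fin n) (𝓞 K))) (d i : ℕ) {N : ℕ}
    (S : Set (HeightOneSpectrum (𝓞 K))) (α : HeightOneSpectrum (𝓞 K) → Fin N → ℂ) : Prop :=
  i ≤ 2 * d ∧ S.Finite ∧ ∀ v, v ∉ S → IsFrobenius X d i v (α v)

/-- **Large deviations on the edge.** -/
theorem result :
    -- the meaning of `logValue`
    (∀ (K : Type) [Field K] [NumberField K] (n : ℕ) (X : Set (MvPolynomial (Fin n) (𝓞 K))) (d i N : ℕ)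
      (S : Set (HeightOneSpectrum (𝓞 K))) (α : HeightOneSpectrum (𝓞 K) → Fin N → ℂ), IsFrobeniusSystem X d i S α →
      (∀ s : ℂ, (i : ℝ) / 2 + 1 < s.re → Tendsto (partialLog S α s) atTop (𝓝 (logValue S α s)) ∧
        Complex.exp (logValue S α s) = LSeries S α s) ∧
      ∀ᵐ t : ℝ, Tendsto (partialLog S α (edgePoint i t)) atTop (𝓝 (logValue S α (edgePoint i t))) ∧
        ∀ C : ℝ, Tendsto (logValue S α) (𝓝[angle i t C] (edgePoint i t)) (𝓝 (logValue S α (edgePoint i t)))) ∧
    -- the uniform upper bound and its optimality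
    (∀ M : ℕ, 0 < M →
      (∃ C : ℝ, 0 ≤ C ∧ ∀ V : ℝ, C ≤ V → ∃ H₀ : ℝ, 0 < H₀ ∧
        ∀ (K : Type) [Field K] [NumberField K] (n : ℕ) (X : Set (MvPolynomial (Fin n) (𝓞 K))) (d i N : ℕ)
          (S : Set (HeightOneSpectrum (𝓞 K))) (α : HeightOneSpectrum (𝓞 K) → Fin N → ℂ), IsFrobeniusSystem X d i S α →
        0 < N → N * Module.finrank ℚ K ≤ M → ∀ σ : ℝ, 0 ≤ σ → ∀ H : ℝ, H₀ ≤ H → ∀ T : ℝ,
          volume (largeSet S i α σ V T H) ≤ ENNReal.ofReal (H * Real.exp (-Real.exp (Real.exp ((V - C) / M))))) ∧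
      ∃ (n : ℕ) (X : Set (MvPolynomial (Fin n) (𝓞 ℚ))) (d i : ℕ) (S : Set (HeightOneSpectrum (𝓞 ℚ)))
        (α : HeightOneSpectrum (𝓞 ℚ) → Fin M → ℂ), IsFrobeniusSystem X d i S α ∧
        ∃ C : ℝ, 0 ≤ C ∧ ∀ V : ℝ, 0 ≤ V → ∃ H₀ : ℝ, 0 < H₀ ∧ ∀ H : ℝ, H₀ ≤ H → ∀ T : ℝ,
          ENNReal.ofReal (H * Real.exp (-Real.exp (Real.exp ((V + C) / M)))) ≤ volume (largeSet S i α 0 V T H)) ∧
    -- the frequency is governed by the traces of Frobenius
    ∀ (M : ℕ) (κ : ℝ), 0 < κ → ∀ C₀ : ℝ, ∃ C : ℝ, 0 ≤ C ∧ ∀ V : ℝ, C ≤ V → ∃ H₀ : ℝ, 0 < H₀ ∧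
      ∀ (K : Type) [Field K] [NumberField K] (n : ℕ) (X : Set (MvPolynomial (Fin n) (𝓞 K))) (d i N : ℕ)
        (S : Set (HeightOneSpectrum (𝓞 K))) (α : HeightOneSpectrum (𝓞 K) → Fin N → ℂ), IsFrobeniusSystem X d i S α →
      0 < N → N * Module.finrank ℚ K ≤ M →
      ((∀ m : ℕ, 3 ≤ m → traceSum S i α m ≤ κ * Real.log (Real.log m) + C₀) →
        ∀ σ : ℝ, 0 ≤ σ → ∀ H : ℝ, H₀ ≤ H → ∀ T : ℝ,
          volume (largeSet S i α σ V T H) ≤ ENNReal.ofReal (H * Real.exp (-Real.exp (Real.exp ((V - C) / κ))))) ∧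
      ((∀ m : ℕ, 3 ≤ m → κ * Real.log (Real.log m) - C₀ ≤ traceSum S i α m) →
        ∀ H : ℝ, H₀ ≤ H → ∀ T : ℝ,
          ENNReal.ofReal (H * Real.exp (-Real.exp (Real.exp ((V + C) / κ)))) ≤ volume (largeSet S i α 0 V T H)) := by
  have hnorm : ∀ (K : Type) [Field K] [NumberField K] (n : ℕ) (X : Set (MvPolynomial (Fin n) (𝓞 K))) (d i N : ℕ)
      (S : Set (HeightOneSpectrum (𝓞 K))) (α : HeightOneSpectrum (𝓞 K) → Fin N → ℂ), IsFrobeniusSystem X d i S α →
      ∀ v, v ∉ S → ∀ j, ‖α v j‖ = (Pool.Agent.H921R2.TatePole.nm v : ℝ) ^ ((i : ℝ) / 2) :=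
    fun K _ _ n X d i N S α h v hv j => Run7.h113.GE.norm_frob (h.2.2 v hv) j
  have hNM : ∀ {K : Type} [Field K] [NumberField K] {N M : ℕ}, 0 < N → N * Module.finrank ℚ K ≤ M →
      (N:ℝ) ≤ M ∧ Module.finrank ℚ K ≤ M ∧ (N:ℝ) * Module.finrank ℚ K ≤ M := by
    intro K _ _ N M hN h
    have h1 : 0 < Module.finrank ℚ K := Module.finrank_pos
    refine ⟨?_, ?_, ?_⟩
    · have : N ≤ M := (Nat.le_mul_of_pos_right N h1).trans h
      exact_mod_cast this
    · exact (Nat.le_mul_of_pos_left _ hN).trans h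
    · exact_mod_cast h
  refine ⟨?_, ?_, ?_⟩
  · intro K _ _ n X d i N S α h
    have hα := hnorm K n X d i N S α h
    refine ⟨fun s hs => ?_, Run7.h113.GE.ae_angle hα⟩
    obtain ⟨u, rfl⟩ : ∃ u : ℂ, s = Run7.h113.GE.eg i + u := ⟨s - Run7.h113.GE.eg i, by ring⟩
    have hu : 0 < u.re := by
      rw [Run7.h113.GE.eg_re] at hs
      linarith
    obtain ⟨h1, h2⟩ := Run7.h113.GE.LL_eq hα (le_refl (N:ℝ)) hu
    exact ⟨by rw [h2]; exact h1, Run7.h113.GE.exp_logValue hα hu⟩
  · intro M hM
    have hM' : (0:ℝ) < M := by exact_mod_cast hM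
    refine ⟨?_, ?_⟩
    · obtain ⟨C, hC0, hC⟩ := Run7.h113.GE.tail_main M (A := M) (M := M) hM'.le hM'
      refine ⟨C, hC0, fun V hV => ?_⟩
      obtain ⟨H₀, hH₀, hmain⟩ := hC V hV
      refine ⟨H₀, hH₀, ?_⟩
      intro K _ _ n X d i N S α h hN hb σ hσ H hH T
      have hα := hnorm K n X d i N S α h
      obtain ⟨h1, h2, h3⟩ := hNM (K := K) hN hb
      exact hmain K N (Run7.h113.GE.vSys hα h1) h2 h3 σ hσ _ (Run7.h113.GE.isLim_logValue hα h1 hσ) H hH T
    · obtain ⟨C₀, hC₀⟩ := Run7.h113.GE.traceSum_pts M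
      obtain ⟨C, hC0, hC⟩ := Run7.h113.GE.low_main 1 (A := M) (M := M) hM'.le hM'.le hM' C₀
      have hsys : IsFrobeniusSystem (Run7.h113.GE.ptsVar M) 0 0 (Run7.h113.GE.exS M)
          (fun _ (_ : Fin M) => (1:ℂ)) := by
        refine ⟨le_rfl, Run7.h113.GE.exS_finite M, fun v hv => Run7.h113.GE.frob_ptsVar M ?_⟩
        have h1 : ¬ ((Pool.Agent.H921R2.TatePole.below v : ℕ) < M) := hv
        omega
      refine ⟨2, Run7.h113.GE.ptsVar M, 0, 0, Run7.h113.GE.exS M, fun _ (_ : Fin M) => (1:ℂ), hsys, C, hC0, fun V hV => ?_⟩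
      obtain ⟨H₀, hH₀, hmain⟩ := hC V hV
      refine ⟨H₀, hH₀, fun H hH T => ?_⟩
      have hα := hnorm ℚ 2 _ 0 0 M _ _ hsys
      refine hmain ℚ M (Run7.h113.GE.vSys hα (le_refl (M:ℝ))) (by rw [Module.finrank_self]) (by
        rw [Module.finrank_self, Nat.cast_one, mul_one]) ?_ _ (Run7.h113.GE.isLim_logValue hα (le_refl (M:ℝ)) le_rfl) H hH T
      intro n hn
      rw [← Run7.h113.GE.traceSum_eq hα (le_refl (M:ℝ))]
      exact hC₀ n hn
  · intro M κ hκ C₀
    have hM' : (0:ℝ) ≤ M := Nat.cast_nonneg M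
    obtain ⟨C, hC0, hC⟩ := Run7.h113.GE.up_main M (A := M) (M := M) hM' hM' hκ C₀
    obtain ⟨C', hC0', hC'⟩ := Run7.h113.GE.low_main M (A := M) (M := M) hM' hM' hκ C₀
    refine ⟨max C C', le_max_of_le_left hC0, fun V hV => ?_⟩
    obtain ⟨H₀, hH₀, hmain⟩ := hC V ((le_max_left _ _).trans hV)
    obtain ⟨H₁, hH₁, hmain'⟩ := hC' V (hC0'.trans ((le_max_right _ _).trans hV))
    refine ⟨max H₀ H₁, lt_max_of_lt_left hH₀, ?_⟩
    intro K _ _ n X d i N S α h hN hb
    have hα := hnorm K n X d i N S α h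
    obtain ⟨h1, h2, h3⟩ := hNM (K := K) hN hb
    constructor
    · intro htr σ hσ H hH T
      have hHp : 0 ≤ H := hH₀.le.trans ((le_max_left _ _).trans hH)
      refine (hmain K N (Run7.h113.GE.vSys hα h1) h2 h3 (fun n hn => ?_) σ hσ _
        (Run7.h113.GE.isLim_logValue hα h1 hσ) H ((le_max_left _ _).trans hH) T).trans ?_
      · rw [← Run7.h113.GE.traceSum_eq hα h1]
        exact htr n hn
      · apply ENNReal.ofReal_le_ofReal
        apply mul_le_mul_of_nonneg_left _ hHp
        apply Real.exp_le_exp.2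
        apply neg_le_neg
        apply Real.exp_le_exp.2
        apply Real.exp_le_exp.2
        apply div_le_div_of_nonneg_right _ hκ.le
        linarith [le_max_left C C']
    · intro htr H hH T
      have hHp : 0 ≤ H := hH₀.le.trans ((le_max_left _ _).trans hH)
      refine le_trans ?_ (hmain' K N (Run7.h113.GE.vSys hα h1) h2 h3 (fun n hn => ?_) _
        (Run7.h113.GE.isLim_logValue hα h1 le_rfl) H ((le_max_right _ _).trans hH) T)
      · apply ENNReal.ofReal_le_ofReal
        apply mul_le_mul_of_nonneg_left _ hHp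
        apply Real.exp_le_exp.2
        apply neg_le_neg
        apply Real.exp_le_exp.2
        apply Real.exp_le_exp.2
        apply div_le_div_of_nonneg_right _ hκ.le
        linarith [le_max_right C C']
      · rw [← Run7.h113.GE.traceSum_eq hα h1]
        exact htr n hn

end Pool.Agent.Results.MP_039d94_nt.LargeDeviations
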